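import Mathlib

open Polynomial Filter

namespace Pool.Agent.Results.MP_0950f1_nt.Even

/-- `a P N n` is the term `a(n)` for `n ≥ 1` (the value at `n = 0` is a dummy `N`). -/
def a (P : ℤ[X]) (N : ℕ) : ℕ → ℤ
  | 0 => N
  | 1 => N
  | n + 2 => a P N (n + 1) - (Int.gcd (a P N (n + 1)) (P.eval ((n + 2 : ℕ) : ℤ)) : ℤ)

/-- `f P N` is the least `n ≥ 1` with `a(n) = 0`. -/
noncomputable def f (P : ℤ[X]) (N : ℕ) : ℕ := sInf {n | 1 ≤ n ∧ a P N n = 0}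

/-- The admissible polynomials. -/
def Adm (P : ℤ[X]) : Prop :=
  (∀ n : ℕ, 1 ≤ n → 0 ≤ P.eval (n : ℤ)) ∧ Tendsto (fun n : ℕ => P.eval (n : ℤ)) atTop atTop

lemma step (P : ℤ[X]) (N n : ℕ) (h : 0 < a P N (n + 1)) :
    0 ≤ a P N (n + 2) ∧ a P N (n + 2) < a P N (n + 1) := by
  have h1 : ((Int.gcd (a P N (n + 1)) (P.eval ((n + 2 : ℕ) : ℤ)) : ℕ) : ℤ) ∣ a P N (n + 1) :=
    Int.gcd_dvd_left _ _
  have h2 := Int.le_of_dvd h h1
  have h3 : 0 < Int.gcd (a P N (n + 1)) (P.eval ((n + 2 : ℕ) : ℤ)) :=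
    Int.gcd_pos_of_ne_zero_left _ h.ne'
  rw [a]
  omega

lemma step_even (P : ℤ[X]) (hP : ∀ n : ℤ, 2 ∣ P.eval n) (N n : ℕ) :
    2 ∣ a P N (n + 2) ∧ (2 ∣ a P N (n + 1) →
      (2 : ℤ) ∣ (Int.gcd (a P N (n + 1)) (P.eval ((n + 2 : ℕ) : ℤ)) : ℤ)) := by
  have h1 : ((Int.gcd (a P N (n + 1)) (P.eval ((n + 2 : ℕ) : ℤ)) : ℕ) : ℤ) ∣ a P N (n + 1) :=
    Int.gcd_dvd_left _ _
  have h2 : 2 ∣ a P N (n + 1) →
      (2 : ℤ) ∣ (Int.gcd (a P N (n + 1)) (P.eval ((n + 2 : ℕ) : ℤ)) : ℤ) :=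
    fun h => Int.dvd_coe_gcd h (hP _)
  refine ⟨?_, h2⟩
  rw [a]
  by_cases h : 2 ∣ a P N (n + 1)
  · exact dvd_sub h (h2 h)
  · have h3 : ¬ (2 : ℤ) ∣ (Int.gcd (a P N (n + 1)) (P.eval ((n + 2 : ℕ) : ℤ)) : ℤ) :=
      fun h' => h (h'.trans h1)
    omega

lemma bound (P : ℤ[X]) (hP : ∀ n : ℤ, 2 ∣ P.eval n) (N : ℕ) (hN : 1 ≤ N) :
    ∃ n, 1 ≤ n ∧ a P N n = 0 ∧ 2 * n ≤ N + 3 := by
  by_contra hc
  push Not at hc
  have key : ∀ n : ℕ, 2 * (n + 2) ≤ N + 3 →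
      0 < a P N (n + 2) ∧ a P N (n + 2) + 2 * n + 1 ≤ N := by
    intro n
    induction n with
    | zero =>
      intro h
      have h0 : a P N (0 + 1) = N := rfl
      have h1 := step P N 0 (by rw [h0]; omega)
      have h2 : a P N (0 + 2) ≠ 0 := fun e => by have := hc _ (by omega) e; omega
      omega
    | succ n ih =>
      intro h
      have h0 := ih (by omega)
      have h1 := step P N (n + 1) h0.1
      have h2 : a P N (n + 1 + 2) ≠ 0 := fun e => by have := hc _ (by omega) e; omega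
      have h3 := (step_even P hP N n).1
      have h4 := (step_even P hP N (n + 1)).1
      have e : n + 1 + 1 = n + 2 := rfl
      rw [e] at h1
      push_cast
      omega
  have h1 := key ((N - 1) / 2) (by omega)
  have h2 := (step_even P hP N ((N - 1) / 2)).1
  omega

lemma f_le (P : ℤ[X]) (hP : ∀ n : ℤ, 2 ∣ P.eval n) (N : ℕ) (hN : 1 ≤ N) :
    2 * f P N ≤ N + 3 := by
  obtain ⟨n, h1, h2, h3⟩ := bound P hP N hN
  have : f P N ≤ n := Nat.sInf_le ⟨h1, h2⟩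
  omega

lemma P0_even (n : ℤ) : 2 ∣ (X ^ 2 + X + 2 : ℤ[X]).eval n := by
  have h := Int.even_mul_succ_self n
  simp only [eval_add, eval_pow, eval_X, eval_ofNat]
  obtain ⟨k, hk⟩ := h
  exact ⟨k + 1, by linear_combination hk⟩

lemma P0_adm : Adm (X ^ 2 + X + 2) := by
  constructor
  · intro n _
    simp only [eval_add, eval_pow, eval_X, eval_ofNat]
    positivity
  · simp only [eval_add, eval_pow, eval_X, eval_ofNat]
    refine tendsto_atTop_mono (fun n => ?_) (tendsto_natCast_atTop_atTop (R := ℤ))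
    nlinarith [sq_nonneg (n : ℤ)]

lemma P0_irr : Irreducible (X ^ 2 + X + 2 : ℤ[X]) := by
  have hm : (X ^ 2 + X + 2 : ℤ[X]).Monic := by monicity!
  have hd : (X ^ 2 + X + 2 : ℤ[X]).natDegree = 2 := by compute_degree!
  rw [hm.irreducible_iff_roots_eq_zero_of_degree_le_three (by omega) (by omega)]
  refine Multiset.eq_zero_of_forall_notMem fun x hx => ?_
  have := (mem_roots hm.ne_zero).1 hx
  simp only [IsRoot.def, eval_add, eval_pow, eval_X, eval_ofNat] at this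
  nlinarith [sq_nonneg (2 * x + 1)]

theorem result :
    (∀ P : ℤ[X], (∀ n : ℤ, 2 ∣ P.eval n) → ∀ N : ℕ, 1 ≤ N →
      (∃ n, 1 ≤ n ∧ a P N n = 0) ∧ 2 * f P N ≤ N + 3) ∧
    (∃ P : ℤ[X], Adm P ∧ P.Monic ∧ Irreducible P ∧
      ∃ δ : ℝ, 0 < δ ∧ ∀ᶠ N : ℕ in atTop, (f P N : ℝ) ≤ (1 - δ) * N) ∧
    ¬ ∀ P : ℤ[X], Adm P → limsup (fun N : ℕ => (f P N : ℝ) / N) atTop = 1 := by
  have hev : ∀ᶠ N : ℕ in atTop, (f (X ^ 2 + X + 2) N : ℝ) ≤ (1 - 1 / 4) * N := by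
    filter_upwards [eventually_ge_atTop 6] with N hN
    have h1 := f_le _ P0_even N (by omega)
    have h2 : (2 : ℝ) * f (X ^ 2 + X + 2) N ≤ N + 3 := by exact_mod_cast h1
    have h3 : (6 : ℝ) ≤ N := by exact_mod_cast hN
    linarith
  refine ⟨fun P hP N hN => ⟨?_, f_le P hP N hN⟩,
    ⟨_, P0_adm, by monicity!, P0_irr, 1 / 4, by norm_num, hev⟩, fun h => ?_⟩
  · obtain ⟨n, h1, h2, -⟩ := bound P hP N hN
    exact ⟨n, h1, h2⟩
  · have h1 := h _ P0_adm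
    have h2 : limsup (fun N : ℕ => (f (X ^ 2 + X + 2) N : ℝ) / N) atTop ≤ 3 / 4 := by
      refine limsup_le_of_le ?_ ?_
      · exact (isBoundedUnder_of ⟨0, fun N => by positivity⟩ :
          IsBoundedUnder (· ≥ ·) atTop _).isCoboundedUnder_le
      · filter_upwards [hev, eventually_ge_atTop 1] with N hN hN1
        have : (0 : ℝ) < N := by exact_mod_cast hN1
        rw [div_le_iff₀ this]; linarith
    rw [h1] at h2
    norm_num at h2

end Pool.Agent.Results.MP_0950f1_nt.Even
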